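import Mathlib
import Pool.Agent.H.MP_c8cc4c_co.Hub.Anc

/-!
# MP_c8cc4c_co, full question, part O: basic facts on ranks, own times, positions and anchors
-/

open scoped Classical
open Finset

noncomputable section

namespace Pool.Agent.H.MP_c8cc4c_co.Hub

namespace Sys

variable {V : Type} [Fintype V] {R : Rt V} {l c : ℕ} {F : Fam R l c} {T : Tour R} {c2 : ℕ}
  (S : Sys F T c2)

theorem o_core {j : ℕ} {v : V} {K : Set V} (h : S.β j v = some K) : R.Core (j * HH l) K :=
  (S.asg j).core v K h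

theorem o_mem {j : ℕ} {v : V} {K : Set V} (h : S.β j v = some K) : v ∈ F.N K :=
  (S.asg j).mem v K h

/-- a vertex which is not assigned to a region of level `j` is low -/
theorem o_none_low {j : ℕ} {v : V} (h : S.β j v = none) : R.f v ≤ j * HH l := by
  by_contra hcon
  have h1 : j * HH l < R.f v := not_le.1 hcon
  obtain ⟨K', hK'⟩ := (S.asg j).ex v _ (Rt.comp_core h1) (Or.inl (Rt.mem_comp h1))
  have : S.β j v = some K' := hK'
  rw [h] at this
  exact absurd this (by simp)

/-! ### ranks -/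

theorem o_rk_eq (K : Set V) {P : ℕ} (hP : P < T.m) :
    S.rk K P = if S.fst (S.k K) ≤ P then P - S.fst (S.k K) else P + T.m - S.fst (S.k K) := by
  have hF := S.fst_lt (S.k K)
  unfold rk
  split_ifs with h
  · have h1 : P + T.m - S.fst (S.k K) = (P - S.fst (S.k K)) + T.m := by omega
    rw [h1, Nat.add_mod_right, Nat.mod_eq_of_lt (by omega)]
  · exact Nat.mod_eq_of_lt (by omega)

theorem o_rk_lt (K : Set V) {P : ℕ} (hP : P < T.m) : S.rk K P < T.m :=
  Nat.mod_lt _ (by omega)

theorem o_rk_inj (K : Set V) {P Q : ℕ} (hP : P < T.m) (hQ : Q < T.m)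
    (h : S.rk K P = S.rk K Q) : P = Q := by
  have hF := S.fst_lt (S.k K)
  rw [S.o_rk_eq K hP, S.o_rk_eq K hQ] at h
  split_ifs at h <;> omega

/-! ### own times -/

theorem o_own_lt {h : ℕ} {K : Set V} {x : V} (hK : R.Core h K) (hx : x ∈ F.N K) :
    S.own K x < T.m := by
  unfold own
  split_ifs with hxK
  · exact S.fst_lt x
  · exact T.ch_lt _ _ (S.exit h K x hK hx hxK).adj

theorem o_own_own {h : ℕ} {K : Set V} {x : V} (hK : R.Core h K) (hx : x ∈ F.N K) :
    T.own (S.own K x) = if x ∈ K then x else S.eb K x := by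
  unfold own
  split_ifs with hxK
  · exact S.fst_own x
  · exact T.own_ch _ _ (S.exit h K x hK hx hxK).adj

/-- the last vertex of an exit is low -/
theorem o_eb_low {h : ℕ} {K : Set V} {x : V} (hK : R.Core h K) (hx : x ∈ F.N K) (hxK : x ∉ K) :
    R.f (S.eb K x) ≤ h := by
  have hE := S.exit h K x hK hx hxK
  exact hK.low hE.aK (hE.disj _ hE.bW) hE.adj.symm

theorem o_eb_not {h : ℕ} {K : Set V} {x : V} (hK : R.Core h K) (hx : x ∈ F.N K) (hxK : x ∉ K) :
    S.eb K x ∉ K := by
  have hE := S.exit h K x hK hx hxK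
  exact hE.disj _ hE.bW

/-- the root vertex determines the region -/
theorem o_k_inj {h : ℕ} {K K' : Set V} (hK : R.Core h K) (hK' : R.Core h K')
    (he : S.k K = S.k K') : K = K' :=
  hK.eq hK' (S.k_mem h K hK).1 (he ▸ (S.k_mem h K' hK').1)

/-! ### positions and anchors -/

theorem o_Φ_child {j : ℕ} {x : V} {K' : Set V} (h : S.β (j + 1) x = some K') :
    S.Φ j x = (S.fst (S.k K'), T.m - S.rk K' (S.own K' x)) := by
  unfold Φ
  rw [h]

theorem o_Φ_own {j : ℕ} {x : V} {K : Set V} (h : S.β (j + 1) x = none) (h' : S.β j x = some K) :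
    S.Φ j x = (S.own K x, 0) := by
  unfold Φ
  rw [h, h']

theorem o_z_child {j : ℕ} {x : V} {K' : Set V} (h : S.β (j + 1) x = some K') :
    S.z j x = S.k K' := by
  unfold z
  rw [h]

theorem o_z_own {j : ℕ} {x : V} {K : Set V} (h : S.β (j + 1) x = none) (h' : S.β j x = some K) :
    S.z j x = if x ∈ K then x else S.eb K x := by
  unfold z
  rw [h, h']

theorem o_w_child {j : ℕ} {x : V} {K' : Set V} (h : S.β (j + 1) x = some K') :
    S.w j x = S.Wd K' x := by
  unfold w
  rw [h]

theorem o_w_own {j : ℕ} {x : V} {K : Set V} (h : S.β (j + 1) x = none) (h' : S.β j x = some K) :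
    S.w j x = S.Wd K x := by
  unfold w
  rw [h, h']

theorem o_Φ_lt {j : ℕ} {x : V} {K : Set V} (h : S.β j x = some K) : (S.Φ j x).1 < T.m := by
  rcases h1 : S.β (j + 1) x with _ | K'
  · rw [S.o_Φ_own h1 h]
    exact S.o_own_lt (S.o_core h) (S.o_mem h)
  · rw [S.o_Φ_child h1]
    exact S.fst_lt _

/-- the owner of the position is the anchor -/
theorem o_own_Φ {j : ℕ} {x : V} {K : Set V} (h : S.β j x = some K) :
    T.own (S.Φ j x).1 = S.z j x := by
  rcases h1 : S.β (j + 1) x with _ | K'
  · rw [S.o_Φ_own h1 h, S.o_z_own h1 h]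
    exact S.o_own_own (S.o_core h) (S.o_mem h)
  · rw [S.o_Φ_child h1, S.o_z_child h1]
    exact S.fst_own _

theorem o_z_low {j : ℕ} {x : V} {K : Set V} (h : S.β (j + 1) x = none) (h' : S.β j x = some K) :
    R.f (S.z j x) ≤ (j + 1) * HH l := by
  rw [S.o_z_own h h']
  split_ifs with hx
  · exact S.o_none_low h
  · refine (S.o_eb_low (S.o_core h') (S.o_mem h') hx).trans ?_
    exact Nat.mul_le_mul_right _ (Nat.le_succ j)

theorem o_z_high {j : ℕ} {x : V} {K' : Set V} (h : S.β (j + 1) x = some K') :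
    R.f (S.z j x) = (j + 1) * HH l + 1 := by
  rw [S.o_z_child h]
  exact (S.k_mem _ _ (S.o_core h)).2

/-- equal positions of one level: equal anchors -/
theorem o_z_eq {j : ℕ} {x y : V} {K K' : Set V} (hx : S.β j x = some K) (hy : S.β j y = some K')
    (h : (S.Φ j x).1 = (S.Φ j y).1) : S.z j x = S.z j y := by
  rw [← S.o_own_Φ hx, ← S.o_own_Φ hy, h]

/-- equal positions of one level: both vertices are in the same child region or none of them is in a
child region -/
theorem o_child_iff {j : ℕ} {x y : V} {K K' : Set V} (hx : S.β j x = some K)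
    (hy : S.β j y = some K') (h : (S.Φ j x).1 = (S.Φ j y).1) : S.β (j + 1) x = S.β (j + 1) y := by
  have hz := S.o_z_eq hx hy h
  rcases h1 : S.β (j + 1) x with _ | A <;> rcases h2 : S.β (j + 1) y with _ | B
  · rfl
  · exfalso
    have e1 := S.o_z_low h1 hx
    have e2 := S.o_z_high h2
    rw [hz, e2] at e1
    omega
  · exfalso
    have e1 := S.o_z_low h2 hy
    have e2 := S.o_z_high h1
    rw [← hz, e2] at e1
    omega
  · rw [S.o_z_child h1, S.o_z_child h2] at hz
    rw [S.o_k_inj (S.o_core h1) (S.o_core h2) hz]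

/-! ### laminarity -/

/-- the regions of all levels up to `j` are equal -/
theorem o_same (hL : ∀ j v K', S.β (j + 1) v = some K' → ∃ K, S.β j v = some K ∧ K' ⊆ K)
    {j : ℕ} {x u : V} {K : Set V} (hx : S.β j x = some K) (hu : S.β j u = some K) :
    ∀ i ≤ j, ∃ K', S.β i x = some K' ∧ S.β i u = some K' := by
  induction j generalizing K with
  | zero =>
    intro i hi
    obtain rfl : i = 0 := by omega
    exact ⟨K, hx, hu⟩
  | succ j ih =>
    intro i hi
    rcases Nat.lt_or_ge j i with h | h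
    · obtain rfl : i = j + 1 := by omega
      exact ⟨K, hx, hu⟩
    · obtain ⟨A, hA, hKA⟩ := hL _ _ _ hx
      obtain ⟨B, hB, hKB⟩ := hL _ _ _ hu
      have hAB : A = B := by
        obtain ⟨p, hp⟩ := (S.o_core hx).conn.1
        exact (S.o_core hA).eq (S.o_core hB) (hKA hp) (hKB hp)
      subst hAB
      exact ih hA hB i h

/-- no region at some level: no region at higher levels -/
theorem o_none_up (hL : ∀ j v K', S.β (j + 1) v = some K' → ∃ K, S.β j v = some K ∧ K' ⊆ K)
    {j : ℕ} {x : V} (hx : S.β j x = none) : ∀ i ≥ j, S.β i x = none := by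
  intro i hi
  induction i, hi using Nat.le_induction with
  | base => exact hx
  | succ i hi ih =>
    rcases h : S.β (i + 1) x with _ | K'
    · rfl
    · obtain ⟨K, hK, -⟩ := hL _ _ _ h
      rw [ih] at hK
      exact absurd hK (by simp)

/-! ### digits -/

theorem o_dig_succ {j : ℕ} {v : V} {K : Set V} (h : S.β j v = some K) :
    S.dig v (j + 1) = if Even j then S.rk K (S.Φ j v).1 + 1 else T.m - S.rk K (S.Φ j v).1 := by
  show (match S.β j v with
    | some K => if Even j then S.rk K (S.Φ j v).1 + 1 else T.m - S.rk K (S.Φ j v).1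
    | none => 0) = _
  rw [h]

theorem o_dig_none {j : ℕ} {v : V} (h : S.β j v = none) : S.dig v (j + 1) = 0 := by
  show (match S.β j v with
    | some K => if Even j then S.rk K (S.Φ j v).1 + 1 else T.m - S.rk K (S.Φ j v).1
    | none => 0) = _
  rw [h]

theorem o_dig_zero {v : V} {K : Set V} (h : S.β 0 v = some K) :
    S.dig v 0 = (Fintype.equivFin (Set V) K : ℕ) + 1 := by
  show (match S.β 0 v with
    | some K => (Fintype.equivFin (Set V) K : ℕ) + 1
    | none => 0) = _
  rw [h]

theorem o_dig_zero_none {v : V} (h : S.β 0 v = none) : S.dig v 0 = 0 := by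
  show (match S.β 0 v with
    | some K => (Fintype.equivFin (Set V) K : ℕ) + 1
    | none => 0) = _
  rw [h]

/-- digits of the same region of the next level are equal -/
theorem o_dig_same (hL : ∀ j v K', S.β (j + 1) v = some K' → ∃ K, S.β j v = some K ∧ K' ⊆ K)
    {j : ℕ} {x u : V} {K : Set V} (hx : S.β j x = some K) (hu : S.β j u = some K) :
    ∀ i ≤ j, S.dig x i = S.dig u i := by
  intro i hi
  have hs := S.o_same hL hx hu
  rcases i with _ | i
  · obtain ⟨A, h1, h2⟩ := hs 0 hi
    rw [S.o_dig_zero h1, S.o_dig_zero h2]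
  · obtain ⟨A, h1, h2⟩ := hs i (by omega)
    obtain ⟨B, h3, h4⟩ := hs (i + 1) hi
    rw [S.o_dig_succ h1, S.o_dig_succ h2, S.o_Φ_child h3, S.o_Φ_child h4]

/-- equal digits of one region: equal positions -/
theorem o_dig_inj {j : ℕ} {x y : V} {K : Set V} (hx : S.β j x = some K) (hy : S.β j y = some K)
    (h : S.dig x (j + 1) = S.dig y (j + 1)) : (S.Φ j x).1 = (S.Φ j y).1 := by
  have h1 := S.o_rk_lt K (S.o_Φ_lt hx)
  have h2 := S.o_rk_lt K (S.o_Φ_lt hy)
  rw [S.o_dig_succ hx, S.o_dig_succ hy] at h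
  refine S.o_rk_inj K (S.o_Φ_lt hx) (S.o_Φ_lt hy) ?_
  split_ifs at h <;> omega

end Sys

end Pool.Agent.H.MP_c8cc4c_co.Hub
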