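import Mathlib
import Pool.Agent.H.MP_c8cc4c_co.Hub.O.Basic

/-!
# MP_c8cc4c_co, full question, part O: the order by keys
-/

open scoped Classical
open Finset

noncomputable section

namespace Pool.Agent.H.MP_c8cc4c_co.Hub

namespace Sys

variable {V : Type} [Fintype V] {R : Rt V} {l c : ℕ} {F : Fam R l c} {T : Tour R} {c2 : ℕ}
  (S : Sys F T c2)

/-- the first digit in which two keys differ -/
theorem o_key_cases {x y : V} (h : S.key x ≤ S.key y) (i : ℕ)
    (hne : ∃ k ≤ i, S.dig x k ≠ S.dig y k) :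
    ∃ k ≤ i, (∀ r < k, S.dig x r = S.dig y r) ∧ S.dig x k < S.dig y k := by
  obtain ⟨k0, hk0, hk0'⟩ := hne
  rcases h.lt_or_eq with h | h
  · have h' : Pi.Lex (· < ·) (fun {_} => (· < ·)) (S.dig x) (S.dig y) := h
    obtain ⟨k, hk1, hk2⟩ := h'
    refine ⟨k, ?_, hk1, hk2⟩
    by_contra hcon
    exact hk0' (hk1 k0 (by omega))
  · have h' : S.dig x = S.dig y := h
    exact absurd (congrFun h' k0) hk0'

/-- sandwich -/
theorem o_dig_sand {x y u : V} (h1 : S.key x ≤ S.key y) (h2 : S.key y ≤ S.key u) (j : ℕ)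
    (h : ∀ i ≤ j, S.dig x i = S.dig u i) : ∀ i ≤ j, S.dig y i = S.dig x i := by
  by_contra hcon
  push Not at hcon
  obtain ⟨i, hi, hne⟩ := hcon
  obtain ⟨k, hk, hk1, hk2⟩ := S.o_key_cases h1 j ⟨i, hi, Ne.symm hne⟩
  have hku := h k hk
  obtain ⟨r, hr, hr1, hr2⟩ := S.o_key_cases h2 k ⟨k, le_rfl, by omega⟩
  have e1 := h r (hr.trans hk)
  rcases hr.lt_or_eq with h3 | h3
  · have e2 := hk1 r h3
    omega
  · subst h3
    omega

/-- the order of the positions by rank -/
def o_lt' (K : Set V) (a b : ℕ × ℕ) : Prop :=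
  S.rk K a.1 < S.rk K b.1 ∨ (a.1 = b.1 ∧ a.2 < b.2)

/-- the positions are ordered as the keys -/
theorem o_key_Φ (hL : ∀ j v K', S.β (j + 1) v = some K' → ∃ K, S.β j v = some K ∧ K' ⊆ K)
    {j : ℕ} {x y : V} {K : Set V} (hx : S.β j x = some K) (hy : S.β j y = some K)
    (hx2 : S.β (j + 2) x = none) (hy2 : S.β (j + 2) y = none) (h : S.key x ≤ S.key y)
    (hne : S.Φ j x ≠ S.Φ j y) :
    (Even j → S.o_lt' K (S.Φ j x) (S.Φ j y)) ∧ (¬ Even j → S.o_lt' K (S.Φ j y) (S.Φ j x)) := by
  have hs := S.o_dig_same hL hx hy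
  -- second digit
  have hsec : ∀ v K', S.β (j + 1) v = some K' → S.β (j + 2) v = none →
      S.dig v (j + 2) = if Even (j + 1) then S.rk K' (S.own K' v) + 1
        else T.m - S.rk K' (S.own K' v) := by
    intro v K' h1 h2
    rw [S.o_dig_succ h1, S.o_Φ_own h2 h1]
  have hrk : ∀ v K', S.β (j + 1) v = some K' → S.rk K' (S.own K' v) < T.m := fun v K' h1 =>
    S.o_rk_lt K' (S.o_own_lt (S.o_core h1) (S.o_mem h1))
  have hdiff : ∃ k ≤ j + 2, S.dig x k ≠ S.dig y k := by
    by_contra hcon
    push Not at hcon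
    have e1 := S.o_dig_inj hx hy (hcon (j + 1) (by omega))
    have e2 := S.o_child_iff hx hy e1
    apply hne
    rcases h1 : S.β (j + 1) x with _ | K'
    · rw [h1] at e2
      rw [S.o_Φ_own h1 hx, S.o_Φ_own e2.symm hy] at e1 ⊢
      rw [Prod.mk.injEq]
      exact ⟨e1, rfl⟩
    · rw [h1] at e2
      have e3 := hcon (j + 2) le_rfl
      rw [hsec x K' h1 hx2, hsec y K' e2.symm hy2] at e3
      have e4 := hrk x K' h1
      have e5 := hrk y K' e2.symm
      rw [S.o_Φ_child h1, S.o_Φ_child e2.symm]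
      have : S.rk K' (S.own K' x) = S.rk K' (S.own K' y) := by
        split_ifs at e3 <;> omega
      rw [this]
  obtain ⟨k, hk, hk1, hk2⟩ := S.o_key_cases h (j + 2) hdiff
  have hkj : j < k := by
    by_contra hcon
    have := hs k (by omega)
    omega
  have hr1 := S.o_rk_lt K (S.o_Φ_lt hx)
  have hr2 := S.o_rk_lt K (S.o_Φ_lt hy)
  rcases Nat.lt_or_ge (j + 1) k with hkj2 | hkj2
  · obtain rfl : k = j + 2 := by omega
    have e1 := S.o_dig_inj hx hy (hk1 (j + 1) (by omega))
    have e2 := S.o_child_iff hx hy e1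
    rcases h1 : S.β (j + 1) x with _ | K'
    · rw [h1] at e2
      rw [S.o_dig_none h1, S.o_dig_none e2.symm] at hk2
      exact absurd hk2 (lt_irrefl _)
    · rw [h1] at e2
      rw [hsec x K' h1 hx2, hsec y K' e2.symm hy2] at hk2
      have e4 := hrk x K' h1
      have e5 := hrk y K' e2.symm
      have e6 := S.o_Φ_child h1
      have e7 := S.o_Φ_child e2.symm
      constructor
      · intro hj
        have hj' : ¬ Even (j + 1) := by rw [Nat.even_add_one]; exact not_not.2 hj
        rw [if_neg hj', if_neg hj'] at hk2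
        refine Or.inr ⟨e1, ?_⟩
        rw [e6, e7]
        exact hk2
      · intro hj
        have hj' : Even (j + 1) := by rw [Nat.even_add_one]; exact hj
        rw [if_pos hj', if_pos hj'] at hk2
        refine Or.inr ⟨e1.symm, ?_⟩
        rw [e6, e7]
        show T.m - S.rk K' (S.own K' y) < T.m - S.rk K' (S.own K' x)
        omega
  · obtain rfl : k = j + 1 := by omega
    rw [S.o_dig_succ hx, S.o_dig_succ hy] at hk2
    constructor
    · intro hj
      rw [if_pos hj, if_pos hj] at hk2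
      exact Or.inl (by omega)
    · intro hj
      rw [if_neg hj, if_neg hj] at hk2
      exact Or.inl (by omega)

end Sys

/-- Part O: the blocks are contiguous -/
theorem sand_stmt (hLev : LevStmt) : SandStmt := by
  intro V _ R l c c2 F T S j K x y u hx hu h1 h2
  have hL := (hLev V R l c c2 F T S).1
  have hd := S.o_dig_sand h1 h2 j (S.o_dig_same hL hx hu)
  have key : ∀ i ≤ j, ∀ K', S.β i x = some K' → S.β i y = some K' := by
    intro i
    induction i with
    | zero =>
      intro hi K' hK'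
      have e1 := hd 0 hi
      rw [S.o_dig_zero hK'] at e1
      rcases h3 : S.β 0 y with _ | A
      · rw [S.o_dig_zero_none h3] at e1
        omega
      · rw [S.o_dig_zero h3] at e1
        have e2 : Fintype.equivFin (Set V) A = Fintype.equivFin (Set V) K' :=
          Fin.ext (by omega)
        rw [(Fintype.equivFin (Set V)).injective e2]
    | succ i ih =>
      intro hi K' hK'
      obtain ⟨K0, hK0, -⟩ := hL i x K' hK'
      have hy0 := ih (by omega) K0 hK0
      have e1 := S.o_dig_inj hy0 hK0 (hd (i + 1) hi)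
      rw [S.o_child_iff hy0 hK0 e1, hK']
  exact key j le_rfl K hx

end Pool.Agent.H.MP_c8cc4c_co.Hub
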