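import Mathlib
import Pool.Agent.H.MP_c8cc4c_co.Hub.PL
import Pool.Agent.H.MP_c8cc4c_co.Hub.O.Keys

/-!
# MP_c8cc4c_co, full question, part O: rotations
-/

open scoped Classical
open Finset

noncomputable section

namespace Pool.Agent.H.MP_c8cc4c_co.Hub

namespace Sys

variable {V : Type} [Fintype V] {R : Rt V} {l c : ℕ} {F : Fam R l c} {T : Tour R} {c2 : ℕ}
  (S : Sys F T c2)

/-- lexicographic order -/
def o_lt (a b : ℕ × ℕ) : Prop := a.1 < b.1 ∨ (a.1 = b.1 ∧ a.2 < b.2)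

theorem o_lt_toLex {a b : ℕ × ℕ} (h : o_lt a b) : toLex a < toLex b := by
  rw [Prod.Lex.toLex_lt_toLex]
  exact h

/-- the order by ranks is a rotation of the lexicographic order -/
theorem o_rot2 (K : Set V) {a b : ℕ × ℕ} (ha : a.1 < T.m) (hb : b.1 < T.m) (h : S.o_lt' K a b) :
    (o_lt a b ∧ (S.fst (S.k K) ≤ a.1 ↔ S.fst (S.k K) ≤ b.1)) ∨
      (S.fst (S.k K) ≤ a.1 ∧ b.1 < S.fst (S.k K)) := by
  have hF := S.fst_lt (S.k K)
  unfold o_lt' at h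
  unfold o_lt
  rw [S.o_rk_eq K ha, S.o_rk_eq K hb] at h
  split_ifs at h <;> omega

theorem o_rot_lt (K : Set V) {a b : ℕ × ℕ} (ha : S.fst (S.k K) ≤ a.1)
    (hb : b.1 < S.fst (S.k K)) : o_lt b a := by
  left
  omega

/-- four positions which are ordered by rank are a rotation of an ordered quadruple -/
theorem o_rot4 (K : Set V) {p q r s : ℕ × ℕ} (hp : p.1 < T.m) (hq : q.1 < T.m) (hr : r.1 < T.m)
    (hs : s.1 < T.m) (h1 : S.o_lt' K p q) (h2 : S.o_lt' K q r) (h3 : S.o_lt' K r s) :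
    (o_lt p q ∧ o_lt q r ∧ o_lt r s) ∨ (o_lt q r ∧ o_lt r s ∧ o_lt s p) ∨
      (o_lt r s ∧ o_lt s p ∧ o_lt p q) ∨ (o_lt s p ∧ o_lt p q ∧ o_lt q r) := by
  rcases S.o_rot2 K hp hq h1 with ⟨a1, b1⟩ | ⟨a1, b1⟩ <;>
    rcases S.o_rot2 K hq hr h2 with ⟨a2, b2⟩ | ⟨a2, b2⟩ <;>
    rcases S.o_rot2 K hr hs h3 with ⟨a3, b3⟩ | ⟨a3, b3⟩
  · exact Or.inl ⟨a1, a2, a3⟩
  · exact Or.inr (Or.inr (Or.inr ⟨S.o_rot_lt K (b1.2 (b2.2 a3)) b3, a1, a2⟩))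
  · refine Or.inr (Or.inr (Or.inl ⟨a3, ?_, a1⟩))
    refine S.o_rot_lt K (b1.2 a2) ?_
    by_contra hcon
    exact absurd (b3.2 (not_lt.1 hcon)) (not_le.2 b2)
  · exact absurd a3 (not_le.2 b2)
  · refine Or.inr (Or.inl ⟨a2, a3, ?_⟩)
    refine S.o_rot_lt K a1 ?_
    by_contra hcon
    exact absurd (b2.2 (b3.2 (not_lt.1 hcon))) (not_le.2 b1)
  · exact absurd (b2.2 a3) (not_le.2 b1)
  · exact absurd a2 (not_le.2 b1)
  · exact absurd a2 (not_le.2 b1)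

end Sys

/-- all forms of the planar lemma -/
theorem TS.PL_alt {V Pt : Type} [LinearOrder Pt] (T : TS V Pt) (A A' : Set V)
    (hd : ∀ a ∈ A, a ∉ A') (hA : T.Cn A) (hA' : T.Cn A') (x y u w : Pt)
    (hx : T.Att A x) (hu : T.Att A u) (hy : T.Att A' y) (hw : T.Att A' w)
    (h1 : ∀ a ∈ A, ¬ T.anc a (T.own y) ∧ ¬ T.anc a (T.own w))
    (h2 : ∀ a ∈ A', ¬ T.anc a (T.own x) ∧ ¬ T.anc a (T.own u)) :
    ¬ ((x < y ∧ y < u ∧ u < w) ∨ (y < u ∧ u < w ∧ w < x) ∨ (u < w ∧ w < x ∧ x < y) ∨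
      (w < x ∧ x < y ∧ y < u)) := by
  have hd' : ∀ a ∈ A', a ∉ A := fun a h h' => hd a h' h
  rintro (h | h | h | h)
  · exact T.PL A A' hd hA hA' x y u w hx hu hy hw h1 h2 h
  · exact T.PL A' A hd' hA' hA y u w x hy hw hu hx (fun a ha => (h2 a ha).symm) h1 h
  · exact T.PL A A' hd hA hA' u w x y hu hx hw hy (fun a ha => (h1 a ha).symm)
      (fun a ha => (h2 a ha).symm) h
  · exact T.PL A' A hd' hA' hA w x y u hw hy hx hu h2 (fun a ha => (h1 a ha).symm) h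

end Pool.Agent.H.MP_c8cc4c_co.Hub
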