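import Mathlib
import Pool.Agent.H.MP_c8cc4c_co.Hub.TSc
import Pool.Agent.H.MP_c8cc4c_co.Hub.O.Rot

/-!
# MP_c8cc4c_co, full question, part O: the sets of the pairs in the contracted tour
-/

open scoped Classical
open Finset

noncomputable section

namespace Pool.Agent.H.MP_c8cc4c_co.Hub

namespace Sys

variable {V : Type} [Fintype V] {R : Rt V} {l c : ℕ} {F : Fam R l c} {T : Tour R} {c2 : ℕ}
  (S : Sys F T c2)

/-- the data of the contraction at level `j` -/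
def o_D (j : ℕ) : Cdat T ((j + 1) * HH l) where
  k := S.k
  k_mem := S.k_mem _
  fst := S.fst
  fst_lt := S.fst_lt
  fst_own := S.fst_own

theorem o_Wd_conn {h : ℕ} {K : Set V} {x : V} (hK : R.Core h K) (hx : x ∈ F.N K) :
    ConnOn R.G (S.Wd K x : Set V) ∧ x ∈ S.Wd K x := by
  unfold Wd
  split_ifs with hxK
  · refine ⟨?_, Finset.mem_singleton_self x⟩
    rw [Finset.coe_singleton]
    exact connOn_singleton x
  · have hE := S.exit h K x hK hx hxK
    exact ⟨hE.conn, hE.vW⟩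

theorem o_w_conn {j : ℕ} {x : V} {K : Set V} (hx : S.β j x = some K) :
    ConnOn R.G (S.w j x : Set V) ∧ x ∈ S.w j x := by
  rcases h1 : S.β (j + 1) x with _ | K'
  · rw [S.o_w_own h1 hx]
    exact S.o_Wd_conn (S.o_core hx) (S.o_mem hx)
  · rw [S.o_w_child h1]
    exact S.o_Wd_conn (S.o_core h1) (S.o_mem h1)

theorem o_Q_conn {F : Fam R l c} {x u : V} (h : F.Γ.Adj x u) :
    ConnOn R.G (F.Q s(x, u) : Set V) ∧ x ∈ F.Q s(x, u) ∧ u ∈ F.Q s(x, u) := by
  obtain ⟨p, -, -, hp⟩ := F.path x u h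
  have h1 : (F.Q s(x, u) : Set V) = {v | v ∈ p.support} := by
    ext v
    exact hp v
  refine ⟨?_, (hp x).2 p.start_mem_support, (hp u).2 p.end_mem_support⟩
  rw [h1]
  exact connOn_support p

theorem o_A_comm (j : ℕ) (x u : V) : S.A j u x = S.A j x u := by
  ext a
  constructor
  · rintro ⟨v, hv, hva⟩
    refine ⟨v, ?_, hva⟩
    rw [Sym2.eq_swap]
    tauto
  · rintro ⟨v, hv, hva⟩
    refine ⟨v, ?_, hva⟩
    rw [Sym2.eq_swap]
    tauto

/-- the set of the pair is connected in the contracted tour -/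
theorem o_A_cn {j : ℕ} {x u : V} {K : Set V} (hadj : F.Γ.Adj x u) (hx : S.β j x = some K)
    (hu : S.β j u = some K) : (S.o_D j).tsc.Cn (S.A j x u) := by
  have h1 : S.A j x u = R.img (S.o_D j).k ((j + 1) * HH l) ''
      (((F.Q s(x, u) : Set V) ∪ (S.w j x : Set V)) ∪ (S.w j u : Set V)) := by
    ext a
    constructor
    · rintro ⟨v, hv, hva⟩
      refine ⟨v, ?_, hva⟩
      rcases hv with hv | hv | hv
      · exact Or.inl (Or.inl hv)
      · exact Or.inl (Or.inr hv)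
      · exact Or.inr hv
    · rintro ⟨v, hv, hva⟩
      refine ⟨v, ?_, hva⟩
      rcases hv with (hv | hv) | hv
      · exact Or.inl hv
      · exact Or.inr (Or.inl hv)
      · exact Or.inr (Or.inr hv)
  rw [h1]
  apply Cdat.conn_img
  obtain ⟨c1, c2, c3⟩ := o_Q_conn hadj
  have d1 := S.o_w_conn hx
  have d2 := S.o_w_conn hu
  exact connOn_union (connOn_union c1 d1.1 ⟨x, c2, d1.2⟩) d2.1 ⟨u, Or.inl c3, d2.2⟩

theorem o_im_low {j : ℕ} {v : V} (h : R.f v ≤ (j + 1) * HH l) : S.im j v = v := by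
  unfold im Rt.img
  rw [if_pos h]

theorem o_im_core {j : ℕ} {v : V} {K' : Set V} (hK' : R.Core ((j + 1) * HH l) K') (h : v ∈ K') :
    S.im j v = S.k K' := by
  unfold im Rt.img
  rw [if_neg (not_le.2 (hK'.hi h)), hK'.comp_eq h]

/-- the anchor is in the set of the pair, or `x` is in a child region and leaves it at a vertex of the
set -/
theorem o_anchor {j : ℕ} {x u : V} {K : Set V} (hadj : F.Γ.Adj x u) (hx : S.β j x = some K) :
    S.z j x ∈ S.A j x u ∨ ∃ K', S.β (j + 1) x = some K' ∧ x ∉ K' ∧ S.eb K' x ∈ S.A j x u := by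
  obtain ⟨c1, c2, c3⟩ := o_Q_conn hadj
  rcases h1 : S.β (j + 1) x with _ | K'
  · left
    have hz := S.o_z_low h1 hx
    refine ⟨S.z j x, ?_, S.o_im_low hz⟩
    by_cases hxK : x ∈ K
    · left
      rw [S.o_z_own h1 hx, if_pos hxK]
      exact c2
    · right
      left
      rw [S.o_w_own h1 hx, S.o_z_own h1 hx, if_neg hxK]
      unfold Wd
      rw [if_neg hxK]
      exact (S.exit _ K x (S.o_core hx) (S.o_mem hx) hxK).bW
  · have hK' := S.o_core h1
    by_cases hQ : ∃ v ∈ F.Q s(x, u), v ∈ K'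
    · obtain ⟨v, hv, hvK⟩ := hQ
      left
      refine ⟨v, Or.inl hv, ?_⟩
      rw [S.o_im_core hK' hvK, S.o_z_child h1]
    · right
      have hxK : x ∉ K' := fun hc => hQ ⟨x, c2, hc⟩
      have hE := S.exit _ K' x hK' (S.o_mem h1) hxK
      refine ⟨K', rfl, hxK, S.eb K' x, ?_, ?_⟩
      · right
        left
        rw [S.o_w_child h1]
        unfold Wd
        rw [if_neg hxK]
        exact hE.bW
      · exact S.o_im_low (S.o_eb_low hK' (S.o_mem h1) hxK)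

/-- the position of `x` is attached to the set of the pair -/
theorem o_att {j : ℕ} {x u : V} {K : Set V} (hadj : F.Γ.Adj x u) (hx : S.β j x = some K) :
    (S.o_D j).tsc.Att (S.A j x u) (toLex (S.Φ j x)) := by
  have hown : (S.o_D j).tsc.own (toLex (S.Φ j x)) = S.z j x := S.o_own_Φ hx
  refine ⟨?_, ?_⟩
  · rcases h1 : S.β (j + 1) x with _ | K'
    · have hz := S.o_z_low h1 hx
      rw [← S.o_own_Φ hx] at hz
      have hlt := S.o_Φ_lt hx
      rw [S.o_Φ_own h1 hx] at hz hlt ⊢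
      exact (S.o_D j).ok_low hlt hz
    · rw [S.o_Φ_child h1]
      exact (S.o_D j).ok_up (S.o_core h1) _
  · rcases S.o_anchor hadj hx with h | ⟨K', h1, hxK, h⟩
    · left
      rw [hown]
      exact h
    · right
      have hK' := S.o_core h1
      have hE := S.exit _ K' x hK' (S.o_mem h1) hxK
      refine ⟨toLex (T.ch (S.eb K' x) (S.ea K' x), 0), ?_, ?_⟩
      · have h2 := (S.o_D j).chord_up hK' hE.aK (S.o_eb_not hK' (S.o_mem h1) hxK) hE.adj.symm
        have h3 : toLex (S.Φ j x) = (S.o_D j).up K' (T.ch (S.eb K' x) (S.ea K' x)) := by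
          rw [S.o_Φ_child h1]
          unfold own
          rw [if_neg hxK]
          rfl
        rw [h3]
        exact h2
      · change T.own (T.ch (S.eb K' x) (S.ea K' x)) ∈ _
        rw [T.own_ch _ _ hE.adj]
        exact h

/-- positions of ends of different pairs are different -/
theorem o_ne {j : ℕ} {x u y w : V} {K : Set V} (hxu : F.Γ.Adj x u) (hyw : F.Γ.Adj y w)
    (hx : S.β j x = some K) (hy : S.β j y = some K) (hd : ∀ a ∈ S.A j x u, a ∉ S.A j y w)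
    (h1 : ∀ a ∈ S.A j x u, ¬ R.anc a (S.z j y)) (h2 : ∀ a ∈ S.A j y w, ¬ R.anc a (S.z j x)) :
    S.Φ j x ≠ S.Φ j y := by
  intro he
  have hz := S.o_z_eq hx hy (by rw [he])
  rcases S.o_anchor hxu hx with h | ⟨K1, hK1, hxK, h⟩
  · exact h1 _ h (hz ▸ R.anc_refl _)
  rcases S.o_anchor hyw hy with h' | ⟨K2, hK2, hyK, h'⟩
  · exact h2 _ h' (hz ▸ R.anc_refl _)
  have hKK : K1 = K2 := by
    have := S.o_child_iff hx hy (by rw [he])
    rw [hK1, hK2] at this
    exact Option.some.inj this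
  subst hKK
  have hC := S.o_core hK1
  have e1 : (S.Φ j x).2 = (S.Φ j y).2 := by rw [he]
  rw [S.o_Φ_child hK1, S.o_Φ_child hK2] at e1
  have l1 := S.o_own_lt hC (S.o_mem hK1)
  have l2 := S.o_own_lt hC (S.o_mem hK2)
  have e2 : T.m - S.rk K1 (S.own K1 x) = T.m - S.rk K1 (S.own K1 y) := e1
  have r1 := S.o_rk_lt K1 l1
  have r2 := S.o_rk_lt K1 l2
  have e3 : S.own K1 x = S.own K1 y := S.o_rk_inj K1 l1 l2 (by omega)
  have e4 := S.o_own_own hC (S.o_mem hK1)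
  have e5 := S.o_own_own hC (S.o_mem hK2)
  rw [if_neg hxK] at e4
  rw [if_neg hyK] at e5
  rw [e3, e5] at e4
  exact hd _ h (e4 ▸ h')

end Sys

/-- Part O, the crossing lemma -/
theorem cross_stmt (hLev : LevStmt) : CrossStmt := by
  intro V _ R l c c2 F T S pos hpos j K x u y w hxu hyw hp1 hp2 hp3
  obtain ⟨hL, hL2, -⟩ := hLev V R l c c2 F T S
  by_contra hconf
  have hx := hxu.2.1
  have hu := hxu.2.2.1
  have hy := hyw.2.1
  have hw := hyw.2.2.1
  have hd : ∀ a ∈ S.A j x u, a ∉ S.A j y w := fun a h h' => hconf (Or.inl ⟨a, h, h'⟩)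
  have h1 : ∀ a ∈ S.A j x u, ¬ R.anc a (S.z j y) ∧ ¬ R.anc a (S.z j w) := fun a h =>
    ⟨fun h' => hconf (Or.inr (Or.inl ⟨a, h, Or.inl h'⟩)),
      fun h' => hconf (Or.inr (Or.inl ⟨a, h, Or.inr h'⟩))⟩
  have h2 : ∀ a ∈ S.A j y w, ¬ R.anc a (S.z j x) ∧ ¬ R.anc a (S.z j u) := fun a h =>
    ⟨fun h' => hconf (Or.inr (Or.inr ⟨a, h, Or.inl h'⟩)),
      fun h' => hconf (Or.inr (Or.inr ⟨a, h, Or.inr h'⟩))⟩
  have hd' : ∀ a ∈ S.A j y w, a ∉ S.A j x u := fun a h h' => hd a h' h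
  -- the positions are different
  have n1 : S.Φ j x ≠ S.Φ j y := S.o_ne hxu.1 hyw.1 hx hy hd (fun a h => (h1 a h).1)
    (fun a h => (h2 a h).1)
  have n2 : S.Φ j y ≠ S.Φ j u := by
    have := S.o_ne (x := u) (u := x) (y := y) (w := w) hxu.1.symm hyw.1 hu hy
      (by rw [S.o_A_comm]; exact hd) (by rw [S.o_A_comm]; exact fun a h => (h1 a h).1)
      (fun a h => (h2 a h).2)
    exact this.symm
  have n3 : S.Φ j u ≠ S.Φ j w := S.o_ne (x := u) (u := x) (y := w) (w := y) hxu.1.symm hyw.1.symm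
    hu hw (by rw [S.o_A_comm j x u, S.o_A_comm j y w]; exact hd)
    (by rw [S.o_A_comm]; exact fun a h => (h1 a h).2)
    (by rw [S.o_A_comm]; exact fun a h => (h2 a h).2)
  -- the keys
  have hkey : ∀ a b, pos a < pos b → S.key a ≤ S.key b := by
    intro a b hab
    by_contra hcon
    exact absurd (hpos b a (not_le.1 hcon)) (not_lt.2 hab.le)
  have k1 := S.o_key_Φ hL hx hy (hL2 j K x u hxu).1 (hL2 j K y w hyw).1 (hkey _ _ hp1) n1
  have k2 := S.o_key_Φ hL hy hu (hL2 j K y w hyw).1 (hL2 j K x u hxu).2 (hkey _ _ hp2) n2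
  have k3 := S.o_key_Φ hL hu hw (hL2 j K x u hxu).2 (hL2 j K y w hyw).2 (hkey _ _ hp3) n3
  have cA := S.o_A_cn hxu.1 hx hu
  have cA' := S.o_A_cn hyw.1 hy hw
  have ax := S.o_att hxu.1 hx
  have au := S.o_att hxu.1.symm hu
  have ay := S.o_att hyw.1 hy
  have aw := S.o_att hyw.1.symm hw
  rw [S.o_A_comm] at au aw
  have ox : (S.o_D j).tsc.own (toLex (S.Φ j x)) = S.z j x := S.o_own_Φ hx
  have ou : (S.o_D j).tsc.own (toLex (S.Φ j u)) = S.z j u := S.o_own_Φ hu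
  have oy : (S.o_D j).tsc.own (toLex (S.Φ j y)) = S.z j y := S.o_own_Φ hy
  have ow : (S.o_D j).tsc.own (toLex (S.Φ j w)) = S.z j w := S.o_own_Φ hw
  have lx := S.o_Φ_lt hx
  have lu := S.o_Φ_lt hu
  have ly := S.o_Φ_lt hy
  have lw := S.o_Φ_lt hw
  by_cases hj : Even j
  · have hrot := S.o_rot4 K lx ly lu lw (k1.1 hj) (k2.1 hj) (k3.1 hj)
    refine (S.o_D j).tsc.PL_alt (S.A j x u) (S.A j y w) hd cA cA' (toLex (S.Φ j x))
      (toLex (S.Φ j y)) (toLex (S.Φ j u)) (toLex (S.Φ j w)) ax au ay aw ?_ ?_ ?_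
    · intro a ha
      rw [oy, ow]
      exact h1 a ha
    · intro a ha
      rw [ox, ou]
      exact h2 a ha
    · rcases hrot with ⟨a1, a2, a3⟩ | ⟨a1, a2, a3⟩ | ⟨a1, a2, a3⟩ | ⟨a1, a2, a3⟩
      · exact Or.inl ⟨Sys.o_lt_toLex a1, Sys.o_lt_toLex a2, Sys.o_lt_toLex a3⟩
      · exact Or.inr (Or.inl ⟨Sys.o_lt_toLex a1, Sys.o_lt_toLex a2, Sys.o_lt_toLex a3⟩)
      · exact Or.inr (Or.inr (Or.inl ⟨Sys.o_lt_toLex a1, Sys.o_lt_toLex a2, Sys.o_lt_toLex a3⟩))
      · exact Or.inr (Or.inr (Or.inr ⟨Sys.o_lt_toLex a1, Sys.o_lt_toLex a2, Sys.o_lt_toLex a3⟩))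
  · have hrot := S.o_rot4 K lw lu ly lx (k3.2 hj) (k2.2 hj) (k1.2 hj)
    refine (S.o_D j).tsc.PL_alt (S.A j y w) (S.A j x u) hd' cA' cA (toLex (S.Φ j w))
      (toLex (S.Φ j u)) (toLex (S.Φ j y)) (toLex (S.Φ j x)) aw ay au ax ?_ ?_ ?_
    · intro a ha
      rw [ox, ou]
      exact (h2 a ha).symm
    · intro a ha
      rw [oy, ow]
      exact (h1 a ha).symm
    · rcases hrot with ⟨a1, a2, a3⟩ | ⟨a1, a2, a3⟩ | ⟨a1, a2, a3⟩ | ⟨a1, a2, a3⟩
      · exact Or.inl ⟨Sys.o_lt_toLex a1, Sys.o_lt_toLex a2, Sys.o_lt_toLex a3⟩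
      · exact Or.inr (Or.inl ⟨Sys.o_lt_toLex a1, Sys.o_lt_toLex a2, Sys.o_lt_toLex a3⟩)
      · exact Or.inr (Or.inr (Or.inl ⟨Sys.o_lt_toLex a1, Sys.o_lt_toLex a2, Sys.o_lt_toLex a3⟩))
      · exact Or.inr (Or.inr (Or.inr ⟨Sys.o_lt_toLex a1, Sys.o_lt_toLex a2, Sys.o_lt_toLex a3⟩))

end Pool.Agent.H.MP_c8cc4c_co.Hub
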